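import Pool.Agent.Helper62.LH.StG

/-!
# BFA: the Busemann type function is 1-Lipschitz and convex along geodesics
-/

set_option autoImplicit false

open Set Filter Topology MeasureTheory
open scoped ContDiff ENNReal

noncomputable section

namespace Pool.Agent.Helper98.LH

open Helper62.LH

/-- elementary inequality -/
lemma bfa_num (D m K : ℝ) (hD : 0 ≤ D) (hm : 0 < m) (hK : 0 ≤ K) (h : m ^ 2 - K ≤ D ^ 2) :
    m - K / m ≤ D := by
  by_contra hlt
  have hlt' : D < m - K / m := not_le.mp hlt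
  have h1 : 0 < m - K / m := lt_of_le_of_lt hD hlt'
  have h2 : K < m ^ 2 := by
    have h3 : K / m < m := by linarith
    rw [div_lt_iff₀ hm] at h3
    nlinarith
  have h4 : D ^ 2 < (m - K / m) ^ 2 := by nlinarith
  have h5 : (m - K / m) ^ 2 = m ^ 2 - 2 * K + (K / m) * (K / m) := by
    field_simp
    ring
  have h6 : (K / m) * (K / m) ≤ K := by
    have h7 : (K / m) * (K / m) = K * (K / m ^ 2) := by
      field_simp
    rw [h7]
    have h8 : K / m ^ 2 ≤ 1 := by
      rw [div_le_one (by positivity)]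
      exact h2.le
    nlinarith
  rw [h5] at h4
  linarith

/-- the limsup is eventually almost an upper bound -/
lemma bfa_ev {X : Type} (F : Filter X) (u : X → ℝ) (C : ℝ) (hb : ∀ y, |u y| ≤ C) (ε : ℝ)
    (hε : 0 < ε) : ∀ᶠ y in F, u y < limsup u F + ε := by
  apply eventually_lt_of_limsup_lt
  · linarith
  · exact isBoundedUnder_of ⟨C, fun y => (abs_le.mp (hb y)).2⟩

/-- upper bounds for the limsup -/
lemma bfa_le {X : Type} (F : Filter X) [NeBot F] (u : X → ℝ) (C a : ℝ) (hb : ∀ y, |u y| ≤ C)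
    (h : ∀ ε > 0, ∀ᶠ y in F, u y ≤ a + ε) : limsup u F ≤ a := by
  apply le_of_forall_pos_le_add
  intro ε hε
  apply limsup_le_of_le
  · have h1 : IsBoundedUnder (· ≥ ·) F u := isBoundedUnder_of ⟨-C, fun y => (abs_le.mp (hb y)).1⟩
    exact h1.isCoboundedUnder_le
  · exact h ε hε

theorem hBfa (hMet : StMet) (hHr : StHr) (hAlx : StAlx) : StBfa := by
  intro n g Γ hn hg hΓ hC hS p
  obtain ⟨_, _, hnn, h0, hsymm, htri⟩ := hMet n g hg
  have : Nonempty (Fin n) := ⟨⟨0, hn⟩⟩
  have : Nontrivial (E n) := inferInstance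
  have : NoncompactSpace (E n) := NormedSpace.noncompactSpace ℝ (E n)
  have : NeBot (cocompact (E n)) := inferInstance
  have hbd : ∀ x y, |dg g p y - dg g x y| ≤ dg g p x := by
    intro x y
    rw [abs_le]
    have h1 := htri p x y
    have h2 := htri x p y
    rw [hsymm x p] at h2
    constructor <;> linarith
  refine ⟨?_, ?_, ?_⟩
  · unfold bf
    simp
  · have hone : ∀ x x', bf g p x ≤ bf g p x' + dg g x x' := by
      intro x x'
      unfold bf
      apply bfa_le _ _ _ _ (hbd x)
      intro ε hε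
      filter_upwards [bfa_ev (cocompact (E n)) _ _ (hbd x') ε hε] with y hy
      have h1 := htri x' x y
      rw [hsymm x' x] at h1
      linarith
    intro x y
    rw [abs_le]
    have h1 := hone x y
    have h2 := hone y x
    rw [hsymm y x] at h2
    constructor <;> linarith
  · intro c v s t hst hgeo
    refine ⟨convex_Icc s t, ?_⟩
    intro τ₁ hτ₁ τ₂ hτ₂ a b ha hb hab
    simp only [smul_eq_mul]
    set K : ℝ := g (c s) (v s) (v s) with hK
    have hK0 : 0 ≤ K := by
      by_cases hv : v s = 0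
      · rw [hK, hv]
        simp
      · exact (hg.pos _ _ hv).le
    set K' : ℝ := K * (a * b * (τ₁ - τ₂) ^ 2) with hK'
    have hK'0 : 0 ≤ K' := by positivity
    -- the comparison
    have hkey : ∀ y, (a * dg g (c τ₁) y + b * dg g (c τ₂) y) ^ 2 - K' ≤
        dg g (c (a * τ₁ + b * τ₂)) y ^ 2 := by
      intro y
      have h1 := ((hAlx n g Γ hg hΓ hC hS).1 y c v s t hst hgeo).2 hτ₁ hτ₂ ha hb hab
      simp only [smul_eq_mul] at h1
      rw [hsymm y (c τ₁), hsymm y (c τ₂), hsymm y (c (a * τ₁ + b * τ₂)), ← hK] at h1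
      have hb' : b = 1 - a := by linarith
      have h2 : a * (K * τ₁ ^ 2) + b * (K * τ₂ ^ 2) - K * (a * τ₁ + b * τ₂) ^ 2 = K' := by
        rw [hK', hb']
        ring
      have h3 : (a * dg g (c τ₁) y + b * dg g (c τ₂) y) ^ 2 ≤
          a * dg g (c τ₁) y ^ 2 + b * dg g (c τ₂) y ^ 2 := by
        have h4 : a * dg g (c τ₁) y ^ 2 + b * dg g (c τ₂) y ^ 2 -
            (a * dg g (c τ₁) y + b * dg g (c τ₂) y) ^ 2 =
            a * b * (dg g (c τ₁) y - dg g (c τ₂) y) ^ 2 := by
          rw [hb']
          ring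
        have h5 : 0 ≤ a * b * (dg g (c τ₁) y - dg g (c τ₂) y) ^ 2 := by positivity
        linarith
      linarith
    have hub : bf g p (c (a * τ₁ + b * τ₂)) ≤ a * bf g p (c τ₁) + b * bf g p (c τ₂) := by
      unfold bf
      apply bfa_le _ _ _ _ (hbd (c (a * τ₁ + b * τ₂)))
      intro ε hε
      have hε2 : 0 < ε / 2 := by linarith
      have hcc : ∀ᶠ y in cocompact (E n),
          2 * K' / ε + 1 + dg g (c τ₁) (c τ₂) < dg g (c τ₁) y := by
        have h1 := (hHr n g hg hC (c τ₁)
          (2 * K' / ε + 1 + dg g (c τ₁) (c τ₂))).compl_mem_cocompact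
        filter_upwards [h1] with y hy
        simpa using hy
      filter_upwards [bfa_ev (cocompact (E n)) _ _ (hbd (c τ₁)) (ε / 2) hε2,
        bfa_ev (cocompact (E n)) _ _ (hbd (c τ₂)) (ε / 2) hε2, hcc] with y h1 h2 h3
      set m : ℝ := a * dg g (c τ₁) y + b * dg g (c τ₂) y with hm
      have h4 : 2 * K' / ε + 1 < m := by
        have h5 := htri (c τ₁) (c τ₂) y
        have h6 : dg g (c τ₁) y - dg g (c τ₁) (c τ₂) ≤ dg g (c τ₂) y := by linarith
        have h7 : b * (dg g (c τ₁) y - dg g (c τ₁) (c τ₂)) ≤ b * dg g (c τ₂) y :=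
          mul_le_mul_of_nonneg_left h6 hb
        have h8 : a * dg g (c τ₁) y + b * dg g (c τ₁) y = dg g (c τ₁) y := by
          rw [← add_mul, hab, one_mul]
        have h9 : b * dg g (c τ₁) (c τ₂) ≤ dg g (c τ₁) (c τ₂) := by
          have := hnn (c τ₁) (c τ₂)
          nlinarith
        rw [hm]
        linarith
      have h5 : 0 ≤ 2 * K' / ε := by positivity
      have hm0 : 0 < m := by linarith
      have h6 := bfa_num _ m K' (hnn (c (a * τ₁ + b * τ₂)) y) hm0 hK'0 (hkey y)
      have h7 : K' / m ≤ ε / 2 := by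
        rw [div_le_iff₀ hm0]
        have h8 : 2 * K' / ε < m := by linarith
        rw [div_lt_iff₀ hε] at h8
        nlinarith
      have h8 : a * (dg g p y - dg g (c τ₁) y) ≤
          a * (limsup (fun y => dg g p y - dg g (c τ₁) y) (cocompact (E n)) + ε / 2) :=
        mul_le_mul_of_nonneg_left h1.le ha
      have h9 : b * (dg g p y - dg g (c τ₂) y) ≤
          b * (limsup (fun y => dg g p y - dg g (c τ₂) y) (cocompact (E n)) + ε / 2) :=
        mul_le_mul_of_nonneg_left h2.le hb
      have h10 : a * dg g p y + b * dg g p y = dg g p y := by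
        rw [← add_mul, hab, one_mul]
      have h11 : a * (ε / 2) + b * (ε / 2) = ε / 2 := by
        rw [← add_mul, hab, one_mul]
      rw [hm] at h6
      rw [← hm] at h6
      linarith
    exact hub

end Pool.Agent.Helper98.LH
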