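import Pool.Agent.Helper62.LH.StA

/-!
# FRA: the exterior derivative of the mollification
-/

set_option autoImplicit false

open Set Filter Topology MeasureTheory
open scoped ContDiff ENNReal

noncomputable section

namespace Pool.Agent.Helper98.LH

open Helper62.LH

variable {n : ℕ}

/-- geometry of the affine substitution -/
lemma fra_mem (x y : E n) (ε : ℝ) (hε : 0 < ε) :
    x - ε • y ∈ Metric.closedBall x ε ↔ y ∈ Metric.closedBall (0 : E n) 1 := by
  rw [Metric.mem_closedBall, dist_eq_norm, mem_closedBall_zero_iff]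
  have h1 : x - ε • y - x = -(ε • y) := by abel
  rw [h1, norm_neg, norm_smul, Real.norm_eq_abs, abs_of_pos hε]
  constructor
  · intro h
    by_contra hlt
    have := mul_lt_mul_of_pos_left (not_le.mp hlt) hε
    linarith
  · intro h
    nlinarith

lemma fra_comp (w : E n → ℝ) (hw : Integrable w) (x : E n) (ε : ℝ) (hε : 0 < ε) :
    Integrable (fun y => w (x - ε • y)) ∧
    ∫ y, w (x - ε • y) = |(ε ^ Module.finrank ℝ (E n))⁻¹| * ∫ z, w z := by
  have h1 : Integrable (fun z => w (x - z)) := hw.comp_sub_left x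
  constructor
  · exact h1.comp_smul hε.ne'
  · have h2 := Measure.integral_comp_smul (volume : Measure (E n)) (fun z => w (x - z)) ε
    rw [h2, smul_eq_mul, integral_sub_left_eq_self]

lemma fra_L2l_int (u : E n → ℝ) (hu : L2l u) (K : Set (E n)) (hK : IsCompact K) :
    IntegrableOn u K := by
  have h1 : IntegrableOn (fun x => (1 : ℝ) + u x ^ 2) K :=
    (integrableOn_const hK.measure_lt_top.ne).add (hu.2 K hK)
  refine Integrable.mono' h1 hu.1.restrict ?_
  refine Eventually.of_forall fun x => ?_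
  rw [Real.norm_eq_abs]
  have := sq_abs (u x)
  nlinarith [sq_nonneg (|u x| - 1), abs_nonneg (u x)]

lemma fra_L2l_sub (u v : E n → ℝ) (hu : L2l u) (hv : L2l v) : L2l (fun x => u x - v x) := by
  refine ⟨hu.1.sub hv.1, fun K hK => ?_⟩
  have h1 : IntegrableOn (fun x => 2 * u x ^ 2 + 2 * v x ^ 2) K :=
    ((hu.2 K hK).const_mul 2).add ((hv.2 K hK).const_mul 2)
  refine Integrable.mono' h1 ((hu.1.sub hv.1).pow 2).restrict ?_
  refine Eventually.of_forall fun x => ?_
  rw [Real.norm_eq_abs, abs_of_nonneg (sq_nonneg _)]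
  nlinarith [sq_nonneg (u x + v x)]

lemma fra_L2l_cont (u : E n → ℝ) (hu : Continuous u) : L2l u :=
  ⟨hu.aestronglyMeasurable, fun _ hK => (hu.pow 2).continuousOn.integrableOn_compact hK⟩

/-- integrability of kernel times shifted function -/
lemma fra_int (u : E n → ℝ) (hu : L2l u) (k : E n → ℝ) (hk : Continuous k) (M : ℝ)
    (hM : ∀ y, |k y| ≤ M) (hk0 : ∀ y, 1 < ‖y‖ → k y = 0) (x : E n) (ε : ℝ) (hε : 0 < ε) :
    Integrable (fun y => k y * u (x - ε • y)) := by
  have h1 : Integrable ((Metric.closedBall x ε).indicator u) :=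
    (integrable_indicator_iff Metric.isClosed_closedBall.measurableSet).mpr
      (fra_L2l_int u hu _ (isCompact_closedBall x ε))
  have h2 := (fra_comp _ h1 x ε hε).1
  have h3 : (fun y => k y * u (x - ε • y)) =
      fun y => k y * (Metric.closedBall x ε).indicator u (x - ε • y) := by
    funext y
    by_cases hy : y ∈ Metric.closedBall (0 : E n) 1
    · rw [indicator_of_mem ((fra_mem x y ε hε).mpr hy)]
    · rw [mem_closedBall_zero_iff, not_le] at hy
      rw [hk0 y hy, zero_mul, zero_mul]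
  rw [h3]
  exact h2.bdd_mul hk.aestronglyMeasurable (Eventually.of_forall fun y => by
    rw [Real.norm_eq_abs]; exact hM y)

/-- the basic bound -/
lemma fra_bound (w : E n → ℝ) (hw : L2l w) (k : E n → ℝ) (M : ℝ) (hM0 : 0 ≤ M)
    (hM : ∀ y, |k y| ≤ M) (hk0 : ∀ y, 1 < ‖y‖ → k y = 0) (x : E n) (ε η : ℝ) (hε : 0 < ε)
    (hη : 0 < η) :
    |∫ y, k y * w (x - ε • y)| ≤ M * (η * volume.real (Metric.closedBall (0 : E n) 1) +
      (1 / η) * (|(ε ^ Module.finrank ℝ (E n))⁻¹| * ∫ z in Metric.closedBall x ε, w z ^ 2)) := by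
  set F : E n → ℝ := (Metric.closedBall x ε).indicator (fun z => w z ^ 2) with hF
  have hFi : Integrable F :=
    (integrable_indicator_iff Metric.isClosed_closedBall.measurableSet).mpr
      (hw.2 _ (isCompact_closedBall x ε))
  have hFI : ∫ z, F z = ∫ z in Metric.closedBall x ε, w z ^ 2 :=
    integral_indicator Metric.isClosed_closedBall.measurableSet
  obtain ⟨hc1, hc2⟩ := fra_comp F hFi x ε hε
  set B : E n → ℝ := (Metric.closedBall (0 : E n) 1).indicator (fun _ => (1 : ℝ)) with hB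
  have hBi : Integrable B :=
    (integrable_indicator_iff Metric.isClosed_closedBall.measurableSet).mpr
      (integrableOn_const (isCompact_closedBall (0 : E n) 1).measure_lt_top.ne)
  have hBI : ∫ y, B y = volume.real (Metric.closedBall (0 : E n) 1) := by
    rw [hB, integral_indicator Metric.isClosed_closedBall.measurableSet]
    simp [measureReal_def]
  have hbd : Integrable (fun y => M * (η * B y + (1 / η) * F (x - ε • y))) :=
    ((hBi.const_mul η).add (hc1.const_mul (1 / η))).const_mul M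
  have h1 : |∫ y, k y * w (x - ε • y)| ≤ ∫ y, M * (η * B y + (1 / η) * F (x - ε • y)) := by
    rw [← Real.norm_eq_abs]
    refine norm_integral_le_of_norm_le hbd (Eventually.of_forall fun y => ?_)
    by_cases hy : y ∈ Metric.closedBall (0 : E n) 1
    · rw [hB, hF, indicator_of_mem hy, indicator_of_mem ((fra_mem x y ε hε).mpr hy), norm_mul,
        Real.norm_eq_abs, Real.norm_eq_abs]
      have h2 : |w (x - ε • y)| ≤ η * 1 + 1 / η * w (x - ε • y) ^ 2 := by
        have h3 := sq_abs (w (x - ε • y))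
        rw [← h3]
        set a := |w (x - ε • y)| with ha
        have ha0 : 0 ≤ a := abs_nonneg _
        have h4 : η * 1 + 1 / η * a ^ 2 - a = (η ^ 2 + a ^ 2 - a * η) / η := by
          field_simp
        have h5 : 0 ≤ (η ^ 2 + a ^ 2 - a * η) / η := by
          apply div_nonneg _ hη.le
          nlinarith [sq_nonneg (a - η)]
        linarith
      exact mul_le_mul (hM y) h2 (abs_nonneg _) hM0
    · have hy' : 1 < ‖y‖ := by
        rw [mem_closedBall_zero_iff, not_le] at hy
        exact hy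
      rw [hk0 y hy', zero_mul, norm_zero]
      have h2 : 0 ≤ B y := indicator_nonneg (fun _ _ => zero_le_one) _
      have h3 : 0 ≤ F (x - ε • y) := indicator_nonneg (fun _ _ => sq_nonneg _) _
      positivity
  refine h1.trans (le_of_eq ?_)
  rw [integral_const_mul, integral_add (hBi.const_mul η) (hc1.const_mul (1 / η)),
    integral_const_mul, integral_const_mul, hBI, hc2, hFI]

/-- the derivative of a mollifier -/
lemma fra_mol (ρ : E n → ℝ) (hρ : Mol ρ) : (∀ y, 1 < ‖y‖ → fderiv ℝ ρ y = 0) ∧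
    ∃ M : ℝ, 0 ≤ M ∧ (∀ y, ‖fderiv ℝ ρ y‖ ≤ M) ∧ (∀ y, |ρ y| ≤ M) := by
  have h0 : ∀ y, 1 < ‖y‖ → fderiv ℝ ρ y = 0 := by
    intro y hy
    have h1 : ρ =ᶠ[𝓝 y] fun _ => (0 : ℝ) := by
      filter_upwards [(isOpen_lt continuous_const continuous_norm).mem_nhds hy] with z hz
      exact hρ.supp z hz
    rw [h1.fderiv_eq]
    simp
  have hc : Continuous (fderiv ℝ ρ) := hρ.smooth.continuous_fderiv (by simp)
  have hcomp := isCompact_closedBall (0 : E n) 1
  obtain ⟨M1, hM1⟩ := hcomp.exists_bound_of_continuousOn hc.continuousOn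
  obtain ⟨M2, hM2⟩ := hcomp.exists_bound_of_continuousOn hρ.smooth.continuous.continuousOn
  refine ⟨h0, max 0 (max M1 M2), le_max_left _ _, fun y => ?_, fun y => ?_⟩
  · by_cases hy : y ∈ Metric.closedBall (0 : E n) 1
    · exact (hM1 y hy).trans ((le_max_left _ _).trans (le_max_right _ _))
    · rw [mem_closedBall_zero_iff, not_le] at hy
      rw [h0 y hy, norm_zero]
      exact le_max_left _ _
  · by_cases hy : y ∈ Metric.closedBall (0 : E n) 1
    · exact (hM2 y hy).trans ((le_max_right _ _).trans (le_max_right _ _))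
    · rw [mem_closedBall_zero_iff, not_le] at hy
      rw [hρ.supp y hy, abs_zero]
      exact le_max_left _ _

/-- integration by parts -/
lemma fra_ibp (ρ : E n → ℝ) (hρ : Mol ρ) (u : E n → ℝ) (hu : ContDiff ℝ ∞ u) (x v : E n) (ε : ℝ)
    (hε : 0 < ε) :
    ∫ y, (fderiv ℝ ρ y v) * u (x - ε • y) / ε = ∫ y, ρ y * fderiv ℝ u (x - ε • y) v := by
  obtain ⟨h0, M, hM0, hM1, hM2⟩ := fra_mol ρ hρ
  have hcd : Continuous (fderiv ℝ ρ) := hρ.smooth.continuous_fderiv (by simp)
  have hcu : Continuous (fderiv ℝ u) := hu.continuous_fderiv (by simp)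
  have hρc : Continuous ρ := hρ.smooth.continuous
  set w : E n → ℝ := fun y => u (x - ε • y) / ε with hw
  have hwd : ∀ y, HasFDerivAt w (-(fderiv ℝ u (x - ε • y))) y := by
    intro y
    have h1 : HasFDerivAt (fun y : E n => x - ε • y) (-(ε • ContinuousLinearMap.id ℝ (E n))) y := by
      have h2 : HasFDerivAt (fun y : E n => ε • y) (ε • ContinuousLinearMap.id ℝ (E n)) y :=
        (hasFDerivAt_id y).const_smul ε
      simpa using h2.const_sub x
    have h3 : HasFDerivAt u (fderiv ℝ u (x - ε • y)) (x - ε • y) :=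
      (hu.differentiable (by simp) _).hasFDerivAt
    have h4 := (h3.comp y h1).mul_const ε⁻¹
    have h5 : (ε⁻¹ • (fderiv ℝ u (x - ε • y)).comp (-(ε • ContinuousLinearMap.id ℝ (E n)))) =
        -(fderiv ℝ u (x - ε • y)) := by
      ext z
      simp only [_root_.smul_apply, ContinuousLinearMap.comp_apply,
        _root_.neg_apply, ContinuousLinearMap.id_apply, map_neg, map_smul,
        smul_eq_mul]
      field_simp
    rw [h5] at h4
    exact h4
  have hwf : ∀ y, fderiv ℝ w y v = -(fderiv ℝ u (x - ε • y) v) := by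
    intro y
    rw [(hwd y).fderiv]
    rfl
  have hucl : L2l u := fra_L2l_cont u hu.continuous
  have hI1 : Integrable (fun y => (fderiv ℝ ρ y v) * u (x - ε • y)) := by
    refine fra_int u hucl (fun y => fderiv ℝ ρ y v) (hcd.clm_apply continuous_const) (M * ‖v‖)
      (fun y => ?_) (fun y hy => ?_) x ε hε
    · rw [← Real.norm_eq_abs]
      exact (fderiv ℝ ρ y).le_of_opNorm_le (hM1 y) v
    · rw [h0 y hy]; rfl
  have hI1' : Integrable (fun y => (fderiv ℝ ρ y v) * w y) := by
    have h1 : (fun y => (fderiv ℝ ρ y v) * w y) =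
        fun y => ε⁻¹ * ((fderiv ℝ ρ y v) * u (x - ε • y)) := by
      funext y
      rw [hw]
      field_simp
    rw [h1]
    exact hI1.const_mul _
  have hI2 : Integrable (fun y => ρ y * fderiv ℝ u (x - ε • y) v) := by
    have hc : Continuous (fun z => fderiv ℝ u z v) := hcu.clm_apply continuous_const
    exact fra_int _ (fra_L2l_cont _ hc) ρ hρc M hM2 hρ.supp x ε hε
  have hI2' : Integrable (fun y => ρ y * fderiv ℝ w y v) := by
    have h1 : (fun y => ρ y * fderiv ℝ w y v) = fun y => -(ρ y * fderiv ℝ u (x - ε • y) v) := by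
      funext y
      rw [hwf y]
      ring
    rw [h1]
    exact hI2.neg
  have hI3 : Integrable (fun y => ρ y * w y) := by
    have h1 : (fun y => ρ y * w y) = fun y => ε⁻¹ * (ρ y * u (x - ε • y)) := by
      funext y
      rw [hw]
      field_simp
    rw [h1]
    exact (fra_int u hucl ρ hρc M hM2 hρ.supp x ε hε).const_mul _
  have hkey := integral_mul_fderiv_eq_neg_fderiv_mul_of_integrable (μ := (volume : Measure (E n)))
    (f := ρ) (g := w) (v := v) hI1' hI2' hI3
    (fun y _ => hρ.smooth.differentiable (by simp) y) (fun y _ => (hwd y).differentiableAt)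
  have h6 : ∫ y, ρ y * fderiv ℝ w y v = -∫ y, ρ y * fderiv ℝ u (x - ε • y) v := by
    rw [← integral_neg]
    congr 1
    funext y
    rw [hwf y]
    ring
  rw [h6] at hkey
  have h7 : ∫ y, (fderiv ℝ ρ y v) * u (x - ε • y) / ε = ∫ y, (fderiv ℝ ρ y v) * w y := by
    congr 1
    funext y
    rw [hw]
    ring
  rw [h7]
  linarith

/-- derivative of the mollified form -/
lemma fra_mf (hMos : StMos) (ρ : E n → ℝ) (hρ : Mol ρ) (θ : E n → Dl n) (hθ : L2f θ) (ε : ℝ)
    (hε : 0 < ε) : ContDiff ℝ ∞ (mf ρ ε θ) ∧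
    ∀ x i j, dd (mf ρ ε θ) x (ee i) (ee j) =
      fderiv ℝ (mo ρ ε (fun y => θ y (ee j))) x (ee i) -
        fderiv ℝ (mo ρ ε (fun y => θ y (ee i))) x (ee j) := by
  have hsm : ∀ j, ContDiff ℝ ∞ (mo ρ ε (fun y => θ y (ee j))) := fun j =>
    (hMos n ρ hρ _ (hθ j) ε hε).1
  constructor
  · unfold mf
    apply ContDiff.sum
    intro j _
    exact ContDiff.smul (hsm j) (contDiff_const (c := (EuclideanSpace.proj j : Dl n)))
  · have hf : ∀ x u, fderiv ℝ (mf ρ ε θ) x u =
        ∑ j, (fderiv ℝ (mo ρ ε (fun y => θ y (ee j))) x u) • (EuclideanSpace.proj j : Dl n) := by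
      intro x u
      have h1 : HasFDerivAt (mf ρ ε θ)
          (∑ j, (fderiv ℝ (mo ρ ε (fun y => θ y (ee j))) x).smulRight
            (EuclideanSpace.proj j : Dl n)) x := by
        unfold mf
        apply HasFDerivAt.fun_sum
        intro j _
        have hd : HasFDerivAt (mo ρ ε (fun y => θ y (ee j)))
            (fderiv ℝ (mo ρ ε (fun y => θ y (ee j))) x) x :=
          ((hsm j).differentiable (by simp) x).hasFDerivAt
        exact HasFDerivAt.smul_const hd (EuclideanSpace.proj j : Dl n)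
      rw [h1.fderiv, _root_.sum_apply]
      rfl
    intro x i j
    unfold dd
    rw [hf, hf, _root_.sum_apply, _root_.sum_apply]
    congr 1
    · rw [Finset.sum_eq_single j]
      · simp [ee]
      · intro l _ hl
        simp [ee, hl]
      · intro h
        exact absurd (Finset.mem_univ _) h
    · rw [Finset.sum_eq_single i]
      · simp [ee]
      · intro l _ hl
        simp [ee, hl]
      · intro h
        exact absurd (Finset.mem_univ _) h

lemma fra_ee (i : Fin n) : ‖(ee i : E n)‖ = 1 := by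
  simp [ee]

/-- the exterior derivative of the mollified form -/
lemma fra_dd (hUt : StUt) (hMos : StMos) (g : E n → Bl n) (hg : IsMet g) (ρ : E n → ℝ)
    (hρ : Mol ρ) (P : E n → Bl n) (θ : E n → Dl n) (hθ : L2f θ) (hW : WkD g P θ) (ε : ℝ)
    (hε : 0 < ε) (x : E n) (i j : Fin n) :
    dd (mf ρ ε θ) x (ee i) (ee j) = mo ρ ε (fun y => P y (ee i) (ee j)) x := by
  obtain ⟨h0, M, hM0, hM1, hM2⟩ := fra_mol ρ hρ
  have hcd : Continuous (fderiv ℝ ρ) := hρ.smooth.continuous_fderiv (by simp)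
  rw [(fra_mf hMos ρ hρ θ hθ ε hε).2 x i j, (hMos n ρ hρ _ (hθ j) ε hε).2 x (ee i),
    (hMos n ρ hρ _ (hθ i) ε hε).2 x (ee j)]
  -- kernels
  have hk : ∀ l : Fin n, Continuous (fun y => fderiv ℝ ρ y (ee l) / ε) ∧
      (∀ y, |fderiv ℝ ρ y (ee l) / ε| ≤ M / ε) ∧
      (∀ y, 1 < ‖y‖ → fderiv ℝ ρ y (ee l) / ε = 0) := by
    intro l
    refine ⟨(hcd.clm_apply continuous_const).div_const _, fun y => ?_, fun y hy => ?_⟩
    · rw [abs_div, abs_of_pos hε]
      apply div_le_div_of_nonneg_right _ hε.le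
      rw [← Real.norm_eq_abs]
      have := (fderiv ℝ ρ y).le_of_opNorm_le (hM1 y) (ee l)
      rwa [fra_ee, mul_one] at this
    · rw [h0 y hy]
      simp
  have hrw : ∀ (u : E n → ℝ) (l : Fin n), ∫ y, (fderiv ℝ ρ y (ee l)) * u (x - ε • y) / ε =
      ∫ y, (fderiv ℝ ρ y (ee l) / ε) * u (x - ε • y) := by
    intro u l
    congr 1
    funext y
    ring
  obtain ⟨_, _, _, _, hloc, hiff⟩ := hUt n g hg
  obtain ⟨c, C, hc, _, hcC⟩ := hloc (Metric.closedBall x ε) (isCompact_closedBall x ε)
  set b : ℝ := volume.real (Metric.closedBall (0 : E n) 1) with hb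
  have hb0 : 0 ≤ b := measureReal_nonneg
  set ce : ℝ := |(ε ^ Module.finrank ℝ (E n))⁻¹| with hce
  have hce0 : 0 ≤ ce := abs_nonneg _
  -- it is enough to show closeness
  have hclose : ∀ η κ : ℝ, 0 < η → 0 < κ →
      |((∫ y, (fderiv ℝ ρ y (ee i)) * θ (x - ε • y) (ee j) / ε) -
        ∫ y, (fderiv ℝ ρ y (ee j)) * θ (x - ε • y) (ee i) / ε) -
        mo ρ ε (fun y => P y (ee i) (ee j)) x| ≤
      2 * (M / ε * (η * b + 1 / η * (ce * (κ / c ^ 2)))) := by
    intro η κ hη hκ
    obtain ⟨θ', hθ's, hθ'P, hθ'i⟩ := hW (Metric.closedBall x ε) (isCompact_closedBall x ε) κ hκ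
    have hθ'c : ∀ l, Continuous (fun z => θ' z (ee l)) := fun l =>
      hθ's.continuous.clm_apply continuous_const
    have hθ'l : ∀ l, L2l (fun z => θ' z (ee l)) := fun l => fra_L2l_cont _ (hθ'c l)
    -- L2 bound
    have hL2 : ∀ l, ∫ z in Metric.closedBall x ε, (θ z (ee l) - θ' z (ee l)) ^ 2 ≤
        κ / c ^ 2 := by
      intro l
      have hd : L2f (fun z => θ' z - θ z) := by
        intro m
        exact fra_L2l_sub _ _ (hθ'l m) (hθ m)
      have hi := ((hiff (fun z => θ' z - θ z)).mp hd).2 _ (isCompact_closedBall x ε)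
      have hw2 : IntegrableOn (fun z => (θ z (ee l) - θ' z (ee l)) ^ 2)
          (Metric.closedBall x ε) :=
        (fra_L2l_sub _ _ (hθ l) (hθ'l l)).2 _ (isCompact_closedBall x ε)
      have h1 : ∫ z in Metric.closedBall x ε, c ^ 2 * (θ z (ee l) - θ' z (ee l)) ^ 2 ≤
          ∫ z in Metric.closedBall x ε, ip g z (θ' z - θ z) (θ' z - θ z) * vol g z := by
        apply setIntegral_mono_on (hw2.const_mul _) hi Metric.isClosed_closedBall.measurableSet
        intro z hz
        obtain ⟨hz1, hz2⟩ := hcC z hz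
        have h2 := (hz2.2.1 (θ' z - θ z)).1
        have h3 : (θ z (ee l) - θ' z (ee l)) ^ 2 ≤ ‖θ' z - θ z‖ ^ 2 := by
          have h4 := (θ' z - θ z).le_opNorm (ee l)
          rw [fra_ee, mul_one, Real.norm_eq_abs] at h4
          have h5 : (θ z (ee l) - θ' z (ee l)) ^ 2 = |(θ' z - θ z) (ee l)| ^ 2 := by
            rw [sq_abs, _root_.sub_apply]
            ring
          rw [h5]
          exact pow_le_pow_left₀ (abs_nonneg _) h4 2
        have h6 : 0 ≤ ‖θ' z - θ z‖ ^ 2 := sq_nonneg _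
        calc c ^ 2 * (θ z (ee l) - θ' z (ee l)) ^ 2 ≤ c ^ 2 * ‖θ' z - θ z‖ ^ 2 :=
              mul_le_mul_of_nonneg_left h3 (sq_nonneg _)
          _ = (c * ‖θ' z - θ z‖ ^ 2) * c := by ring
          _ ≤ ip g z (θ' z - θ z) (θ' z - θ z) * vol g z :=
              mul_le_mul h2 hz1 hc.le ((mul_nonneg hc.le h6).trans h2)
      rw [integral_const_mul] at h1
      rw [le_div_iff₀ (by positivity)]
      linarith
    -- differences
    have hdiff : ∀ l m : Fin n, |(∫ y, (fderiv ℝ ρ y (ee l) / ε) * θ (x - ε • y) (ee m)) -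
        ∫ y, (fderiv ℝ ρ y (ee l) / ε) * θ' (x - ε • y) (ee m)| ≤
        M / ε * (η * b + 1 / η * (ce * (κ / c ^ 2))) := by
      intro l m
      obtain ⟨hk1, hk2, hk3⟩ := hk l
      have hi1 := fra_int (fun z => θ z (ee m)) (hθ m) _ hk1 _ hk2 hk3 x ε hε
      have hi2 := fra_int (fun z => θ' z (ee m)) (hθ'l m) _ hk1 _ hk2 hk3 x ε hε
      have h1 : (∫ y, (fderiv ℝ ρ y (ee l) / ε) * θ (x - ε • y) (ee m)) -
          ∫ y, (fderiv ℝ ρ y (ee l) / ε) * θ' (x - ε • y) (ee m) =
          ∫ y, (fderiv ℝ ρ y (ee l) / ε) *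
            ((fun z => θ z (ee m) - θ' z (ee m)) (x - ε • y)) := by
        rw [← integral_sub hi1 hi2]
        congr 1
        funext y
        simp only
        ring
      rw [h1]
      refine (fra_bound _ (fra_L2l_sub _ _ (hθ m) (hθ'l m)) _ (M / ε) (by positivity) hk2 hk3
        x ε η hε hη).trans ?_
      apply mul_le_mul_of_nonneg_left _ (by positivity)
      have h2 := mul_le_mul_of_nonneg_left (hL2 m) hce0
      have h3 := mul_le_mul_of_nonneg_left h2 (by positivity : (0 : ℝ) ≤ 1 / η)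
      linarith
    -- the smooth form
    have hsmooth : (∫ y, (fderiv ℝ ρ y (ee i) / ε) * θ' (x - ε • y) (ee j)) -
        ∫ y, (fderiv ℝ ρ y (ee j) / ε) * θ' (x - ε • y) (ee i) =
        mo ρ ε (fun y => P y (ee i) (ee j)) x := by
      have hcs : ∀ l, ContDiff ℝ ∞ (fun z => θ' z (ee l)) := fun l =>
        hθ's.clm_apply contDiff_const
      have hfd : ∀ z u l, fderiv ℝ (fun z => θ' z (ee l)) z u = fderiv ℝ θ' z u (ee l) := by
        intro z u l
        have h1 : HasFDerivAt (fun z => θ' z (ee l)) ((fderiv ℝ θ' z).flip (ee l)) z := by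
          have h2 := ((hθ's.differentiable (by simp) z).hasFDerivAt).clm_apply
            (hasFDerivAt_const (ee l : E n) z)
          simpa using h2
        rw [h1.fderiv]
        rfl
      have e1 := fra_ibp ρ hρ _ (hcs j) x (ee i) ε hε
      have e2 := fra_ibp ρ hρ _ (hcs i) x (ee j) ε hε
      rw [hrw (fun z => θ' z (ee j)) i] at e1
      rw [hrw (fun z => θ' z (ee i)) j] at e2
      rw [e1, e2]
      have hcf : Continuous (fderiv ℝ θ') := hθ's.continuous_fderiv (by simp)
      have hi : ∀ l m : Fin n, Integrable (fun y => ρ y *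
          fderiv ℝ (fun z => θ' z (ee m)) (x - ε • y) (ee l)) := by
        intro l m
        have hc1 : Continuous (fun z => fderiv ℝ (fun z => θ' z (ee m)) z (ee l)) := by
          have h2 : (fun z => fderiv ℝ (fun z => θ' z (ee m)) z (ee l)) =
              fun z => fderiv ℝ θ' z (ee l) (ee m) := by
            funext z
            exact hfd z _ _
          rw [h2]
          exact (hcf.clm_apply continuous_const).clm_apply continuous_const
        exact fra_int _ (fra_L2l_cont _ hc1) ρ hρ.smooth.continuous M hM2 hρ.supp x ε hε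
      rw [← integral_sub (hi i j) (hi j i)]
      unfold mo
      congr 1
      funext y
      rw [hfd, hfd]
      have h3 := hθ'P (x - ε • y) (ee i) (ee j)
      unfold dd at h3
      simp only
      rw [← h3]
      ring
    rw [hrw (fun z => θ z (ee j)) i, hrw (fun z => θ z (ee i)) j, ← hsmooth]
    have d1 := hdiff i j
    have d2 := hdiff j i
    rw [abs_le] at d1 d2 ⊢
    constructor <;> linarith [d1.1, d1.2, d2.1, d2.2]
  have hzero : ∀ δ : ℝ, 0 < δ →
      |((∫ y, (fderiv ℝ ρ y (ee i)) * θ (x - ε • y) (ee j) / ε) -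
        ∫ y, (fderiv ℝ ρ y (ee j)) * θ (x - ε • y) (ee i) / ε) -
        mo ρ ε (fun y => P y (ee i) (ee j)) x| ≤ δ := by
    intro δ hδ
    set A : ℝ := 2 * (M / ε) with hA
    have hA0 : 0 ≤ A := by positivity
    set η : ℝ := δ / (2 * (A * b + 1)) with hη
    have hη0 : 0 < η := by positivity
    set κ : ℝ := δ * η * c ^ 2 / (2 * (A * ce + 1)) with hκ
    have hκ0 : 0 < κ := by positivity
    refine (hclose η κ hη0 hκ0).trans ?_
    have e1 : 2 * (M / ε * (η * b + 1 / η * (ce * (κ / c ^ 2)))) =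
        A * b * η + A * ce * (κ / (c ^ 2 * η)) := by
      rw [hA]
      field_simp
    rw [e1]
    have e2 : A * b * η ≤ δ / 2 := by
      rw [hη]
      have h1 : A * b * (δ / (2 * (A * b + 1))) = (δ / 2) * ((A * b) / (A * b + 1)) := by
        field_simp
      rw [h1]
      have h2 : (A * b) / (A * b + 1) ≤ 1 := by
        rw [div_le_one (by positivity)]
        linarith
      nlinarith
    have e3 : A * ce * (κ / (c ^ 2 * η)) ≤ δ / 2 := by
      have h1 : A * ce * (κ / (c ^ 2 * η)) = (δ / 2) * ((A * ce) / (A * ce + 1)) := by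
        rw [hκ]
        field_simp
      rw [h1]
      have h2 : (A * ce) / (A * ce + 1) ≤ 1 := by
        rw [div_le_one (by positivity)]
        linarith
      nlinarith
    linarith
  have hfin : |((∫ y, (fderiv ℝ ρ y (ee i)) * θ (x - ε • y) (ee j) / ε) -
        ∫ y, (fderiv ℝ ρ y (ee j)) * θ (x - ε • y) (ee i) / ε) -
        mo ρ ε (fun y => P y (ee i) (ee j)) x| ≤ 0 :=
    le_of_forall_pos_le_add (fun δ hδ => by rw [zero_add]; exact hzero δ hδ)
  have := abs_nonpos_iff.mp hfin
  linarith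

/-- uniform convergence of the mollification of a continuous function -/
lemma fra_unif (ρ : E n → ℝ) (hρ : Mol ρ) (u : E n → ℝ) (hu : Continuous u) (K : Set (E n))
    (hK : IsCompact K) (κ : ℝ) (hκ : 0 < κ) :
    ∀ᶠ ε : ℝ in 𝓝[>] 0, ∀ x ∈ K, |mo ρ ε u x - u x| ≤ κ := by
  have h1 : ∀ᶠ ε : ℝ in 𝓝 0, ∀ p ∈ K ×ˢ Metric.closedBall (0 : E n) 1,
      |u (p.1 - ε • p.2) - u p.1| < κ := by
    apply (hK.prod (isCompact_closedBall (0 : E n) 1)).eventually_forall_of_forall_eventually
      (P := fun (ε : ℝ) (p : E n × E n) => |u (p.1 - ε • p.2) - u p.1| < κ)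
    intro p _
    have hc : Continuous (fun z : ℝ × (E n × E n) => |u (z.2.1 - z.1 • z.2.2) - u z.2.1|) := by
      fun_prop
    apply hc.continuousAt.eventually_lt continuousAt_const
    simpa using hκ
  filter_upwards [h1.filter_mono nhdsWithin_le_nhds, self_mem_nhdsWithin] with ε hε hε0 x hx
  have hε0' : 0 < ε := hε0
  obtain ⟨_, M, _, _, hM2⟩ := fra_mol ρ hρ
  have hi1 : Integrable (fun y => ρ y * u (x - ε • y)) :=
    fra_int u (fra_L2l_cont u hu) ρ hρ.smooth.continuous M hM2 hρ.supp x ε hε0'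
  have hi0 : Integrable ρ := by
    have h2 := fra_int (fun _ => (1 : ℝ)) (fra_L2l_cont _ continuous_const) ρ
      hρ.smooth.continuous M hM2 hρ.supp x ε hε0'
    simpa using h2
  have h2 : mo ρ ε u x - u x = ∫ y, ρ y * (u (x - ε • y) - u x) := by
    have h3 : u x = ∫ y, ρ y * u x := by
      rw [integral_mul_const, hρ.int, one_mul]
    have h4 : mo ρ ε u x - ∫ y, ρ y * u x = ∫ y, ρ y * (u (x - ε • y) - u x) := by
      unfold mo
      rw [← integral_sub hi1 (hi0.mul_const _)]
      congr 1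
      funext y
      ring
    rw [← h4, ← h3]
  rw [h2, ← Real.norm_eq_abs]
  have h5 : ‖∫ y, ρ y * (u (x - ε • y) - u x)‖ ≤ ∫ y, ρ y * κ := by
    refine norm_integral_le_of_norm_le (hi0.mul_const _) (Eventually.of_forall fun y => ?_)
    rw [norm_mul, Real.norm_eq_abs, Real.norm_eq_abs, abs_of_nonneg (hρ.nonneg y)]
    by_cases hy : y ∈ Metric.closedBall (0 : E n) 1
    · exact mul_le_mul_of_nonneg_left (hε (x, y) ⟨hx, hy⟩).le (hρ.nonneg y)
    · rw [mem_closedBall_zero_iff, not_le] at hy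
      rw [hρ.supp y hy]
      simp
  rw [integral_mul_const, hρ.int, one_mul] at h5
  exact h5

/-- norm of a bilinear form from its values on the standard basis -/
lemma fra_norm (B : Bl n) (b : ℝ) (hb : 0 ≤ b) (h : ∀ i j, |B (ee i) (ee j)| ≤ b) :
    ‖B‖ ≤ (n : ℝ) ^ 2 * b := by
  apply ContinuousLinearMap.opNorm_le_bound₂ _ (by positivity)
  intro u v
  have hexp : ∀ w : E n, w = ∑ i, w i • ee i := by
    intro w
    ext k
    simp [ee, Finset.sum_apply, Pi.single_apply]
  have h1 : B u v = ∑ i, ∑ j, u i * (v j * B (ee i) (ee j)) := by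
    have e1 : B u v = ∑ i, u i * B (ee i) v := by
      conv_lhs => rw [hexp u]
      rw [map_sum, _root_.sum_apply]
      apply Finset.sum_congr rfl
      intro i _
      rw [map_smul, _root_.smul_apply, smul_eq_mul]
    have e2 : ∀ i, B (ee i) v = ∑ j, v j * B (ee i) (ee j) := by
      intro i
      conv_lhs => rw [hexp v]
      rw [map_sum]
      apply Finset.sum_congr rfl
      intro j _
      rw [map_smul, smul_eq_mul]
    rw [e1]
    apply Finset.sum_congr rfl
    intro i _
    rw [e2 i, Finset.mul_sum]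
  rw [h1]
  have hcoord : ∀ (w : E n) (i : Fin n), |w i| ≤ ‖w‖ := by
    intro w i
    rw [← Real.norm_eq_abs]
    exact PiLp.norm_apply_le w i
  have h2 : ∀ i j : Fin n, ‖u i * (v j * B (ee i) (ee j))‖ ≤ ‖u‖ * (‖v‖ * b) := by
    intro i j
    rw [norm_mul, norm_mul, Real.norm_eq_abs, Real.norm_eq_abs, Real.norm_eq_abs]
    apply mul_le_mul (hcoord u i) _ (by positivity) (norm_nonneg _)
    exact mul_le_mul (hcoord v j) (h i j) (abs_nonneg _) (norm_nonneg _)
  calc ‖∑ i, ∑ j, u i * (v j * B (ee i) (ee j))‖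
      ≤ ∑ i : Fin n, ∑ j : Fin n, ‖u‖ * (‖v‖ * b) := by
        refine (norm_sum_le _ _).trans (Finset.sum_le_sum fun i _ => ?_)
        exact (norm_sum_le _ _).trans (Finset.sum_le_sum fun j _ => h2 i j)
    _ = (n : ℝ) ^ 2 * b * ‖u‖ * ‖v‖ := by
        simp only [Finset.sum_const, Finset.card_univ, Fintype.card_fin, nsmul_eq_mul]
        ring

theorem hFra (hUt : StUt) (hMos : StMos) : StFra := by
  intro n g Γ hg _ ρ hρ P θ hP hθ hW K hK κ hκ
  obtain ⟨_, _, _, _, hloc, _⟩ := hUt n g hg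
  obtain ⟨c, C, _, hC, hcC⟩ := hloc K hK
  set b : ℝ := min 1 (κ / (C * ((n : ℝ) ^ 4 + 1))) with hb
  have hb0 : 0 < b := by
    rw [hb]
    apply lt_min one_pos
    positivity
  have hall : ∀ᶠ ε : ℝ in 𝓝[>] 0, ∀ q : Fin n × Fin n, ∀ x ∈ K,
      |mo ρ ε (fun y => P y (ee q.1) (ee q.2)) x - P x (ee q.1) (ee q.2)| ≤ b := by
    rw [eventually_all]
    intro q
    exact fra_unif ρ hρ _ ((hP.clm_apply continuous_const).clm_apply continuous_const) K hK b hb0
  filter_upwards [hall, self_mem_nhdsWithin] with ε hε hε0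
  have hε0' : 0 < ε := hε0
  refine ⟨(fra_mf hMos ρ hρ θ hθ ε hε0').1, fun x hx => ?_⟩
  have h1 : (fun u v => dd (mf ρ ε θ) x u v - P x u v) =
      fun u v => (dB (mf ρ ε θ) x - P x) u v := by
    funext u v
    unfold dd dB
    simp only [_root_.sub_apply, ContinuousLinearMap.flip_apply]
  rw [h1]
  have h2 : ∀ i j, |(dB (mf ρ ε θ) x - P x) (ee i) (ee j)| ≤ b := by
    intro i j
    have h3 := congrFun (congrFun h1 (ee i)) (ee j)
    rw [← h3, fra_dd hUt hMos g hg ρ hρ P θ hθ hW ε hε0' x i j]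
    exact hε (i, j) x hx
  have h4 := fra_norm _ b hb0.le h2
  refine ((hcC x hx).2.2.2 _).trans ?_
  have h5 : ‖dB (mf ρ ε θ) x - P x‖ ^ 2 ≤ ((n : ℝ) ^ 2 * b) ^ 2 :=
    pow_le_pow_left₀ (ContinuousLinearMap.opNorm_nonneg _) h4 2
  have h6 : b ^ 2 ≤ b := by
    have : b ≤ 1 := min_le_left _ _
    nlinarith
  have h7 : b ≤ κ / (C * ((n : ℝ) ^ 4 + 1)) := min_le_right _ _
  calc C * ‖dB (mf ρ ε θ) x - P x‖ ^ 2 ≤ C * ((n : ℝ) ^ 2 * b) ^ 2 :=
        mul_le_mul_of_nonneg_left h5 hC.le
    _ = C * (n : ℝ) ^ 4 * b ^ 2 := by ring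
    _ ≤ C * (n : ℝ) ^ 4 * (κ / (C * ((n : ℝ) ^ 4 + 1))) :=
        mul_le_mul_of_nonneg_left (h6.trans h7) (by positivity)
    _ = κ * ((n : ℝ) ^ 4 / ((n : ℝ) ^ 4 + 1)) := by field_simp
    _ ≤ κ := by
        have h8 : (n : ℝ) ^ 4 / ((n : ℝ) ^ 4 + 1) ≤ 1 := by
          rw [div_le_one (by positivity)]
          linarith
        nlinarith

end Pool.Agent.Helper98.LH
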